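import Mathlib
import Pool.Agent.Lib.MP_0da313_nt.CM.Main
import Pool.Agent.Lib.MP_0da313_nt.CM.Fin2
import Pool.Agent.Lib.MP_cc3cca_nt.Pairs

namespace Pool.Agent.Results.MP_cc3cca_nt.ChenPairs

/-- The four numbers of the problem: `6x - 1`, `12x - 1`, `6y - 1`, `6y + 1` (in this order). -/
def form (x y : ℕ) : Fin 4 → ℕ := ![6 * x - 1, 12 * x - 1, 6 * y - 1, 6 * y + 1]

/-- Each of the four numbers has at most `B` prime factors (with multiplicity), and all its prime
factors are larger than `(x + y)^(1/B)`. -/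
def Rough (B x y : ℕ) : Prop := ∀ k : Fin 4,
  ArithmeticFunction.cardFactors (form x y k) ≤ B ∧
  ∀ p : ℕ, p.Prime → p ∣ form x y k → x + y < p ^ B

/-- There are `B` and `c > 0` such that for any two different `i, j` among the four numbers `6x-1`,
`12x-1`, `6y-1`, `6y+1` and for EVERY large `n`, at least `c n/(log n)^4` of the pairs `x + y = n` of
positive integers are such that the `i`-th number is prime, the `j`-th number has at most two prime
factors, and each of the four numbers has at most `B` prime factors, all larger than `n^(1/B)`. -/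
theorem result : ∃ (B : ℕ) (c : ℝ), 0 < c ∧ ∀ i j : Fin 4, i ≠ j → ∃ N : ℕ, ∀ n : ℕ, N ≤ n →
    c * (n / (Real.log n) ^ 4) ≤
      (Set.ncard {x : ℕ | 0 < x ∧ x < n ∧ (form x (n - x) i).Prime ∧
        ArithmeticFunction.cardFactors (form x (n - x) j) ≤ 2 ∧ Rough B x (n - x)} : ℝ) :=
  Pool.Agent.Lib.MP_cc3cca_nt.main1 Pool.Agent.CM.C.h_sv
    (Pool.Agent.CM.final_all Pool.Agent.CM.F.h_final)

end Pool.Agent.Results.MP_cc3cca_nt.ChenPairs
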