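import Mathlib
import Pool.Agent.Lib.MP_0da313_nt.CM.Main
import Pool.Agent.Lib.MP_0da313_nt.TC.Final
import Pool.Agent.Lib.MP_cc3cca_nt.Pairs

namespace Pool.Agent.Results.MP_cc3cca_nt.TwoPrimes

/-- The four numbers of the problem: `6x - 1`, `12x - 1`, `6y - 1`, `6y + 1` (in this order). -/
def form (x y : ℕ) : Fin 4 → ℕ := ![6 * x - 1, 12 * x - 1, 6 * y - 1, 6 * y + 1]

/-- Each of the four numbers has at most `B` prime factors (with multiplicity), and all its prime
factors are larger than `(x + y)^(1/B)`. -/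
def Rough (B x y : ℕ) : Prop := ∀ k : Fin 4,
  ArithmeticFunction.cardFactors (form x y k) ≤ B ∧
  ∀ p : ℕ, p.Prime → p ∣ form x y k → x + y < p ^ B

open Classical in
/-- There are `B` and `c > 0` such that for `i` one of the two numbers `6x-1`, `12x-1`, `j` one of the
two numbers `6y-1`, `6y+1`, every `A` and all large `N`, the following holds for all `1 ≤ n ≤ N` with at
most `N/(log N)^A` exceptions: at least `c n/(log n)^4` of the pairs `x + y = n` of positive integers are
such that the `i`-th AND the `j`-th number are prime and each of the four numbers has at most `B` prime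
factors, all larger than `n^(1/B)`. -/
theorem result : ∃ (B : ℕ) (c : ℝ), 0 < c ∧ ∀ i j : Fin 4, i < 2 → 2 ≤ j →
    ∀ A : ℕ, ∀ᶠ N : ℕ in Filter.atTop,
      (((Finset.Icc 1 N).filter (fun n : ℕ => ¬ (c * (n / (Real.log n) ^ 4) ≤
        (Set.ncard {x : ℕ | 0 < x ∧ x < n ∧ (form x (n - x) i).Prime ∧
          (form x (n - x) j).Prime ∧ Rough B x (n - x)} : ℝ)))).card : ℝ)
      ≤ N / (Real.log N) ^ A :=
  Pool.Agent.Lib.MP_cc3cca_nt.main2 Pool.Agent.CM.C.h_sv
    (Pool.Agent.TC.F.h_fin2 Pool.Agent.TC.h_EX)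

end Pool.Agent.Results.MP_cc3cca_nt.TwoPrimes
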